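import Mathlib

namespace Pool.Agent.TH126.GQ

theorem singer (F V : Type) [Field F] [Finite F] [AddCommGroup V] [Module F V]
    [FiniteDimensional F V] :
    ∃ c : V ≃ₗ[F] V, ∀ x y : V, x ≠ 0 → y ≠ 0 → ∃ j : ℕ, (c ^ j) x = y := by
  classical
  by_cases hd : Module.finrank F V = 0
  · refine ⟨1, fun x y hx _ => ?_⟩
    have := Module.finrank_zero_iff.mp hd
    exact absurd (Subsingleton.elim x 0) hx
  obtain ⟨p, hp⟩ := CharP.exists F
  have hpp : Fact p.Prime := ⟨(CharP.char_is_prime_or_zero F p).resolve_right (by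
    rintro rfl
    have : CharZero F := CharP.charP_to_charZero F
    exact not_finite F)⟩
  have hn : NeZero (Module.finrank F V) := ⟨hd⟩
  let K := FiniteField.Extension F p (Module.finrank F V)
  have hK : Module.finrank F K = Module.finrank F V :=
    FiniteField.finrank_extension F p (Module.finrank F V)
  have e : V ≃ₗ[F] K := LinearEquiv.ofFinrankEq V K hK.symm
  obtain ⟨g, hg⟩ := IsCyclic.exists_generator (α := Kˣ)
  obtain ⟨m, hm⟩ : ∃ m : K ≃ₗ[F] K, ∀ z : K, m z = (g : K) * z :=
    ⟨{ toFun := fun z => (g : K) * z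
       invFun := fun z => ((g⁻¹ : Kˣ) : K) * z
       map_add' := fun a b => mul_add _ _ _
       map_smul' := fun a b => by simp
       left_inv := fun z => by simp
       right_inv := fun z => by simp }, fun z => rfl⟩
  let c : V ≃ₗ[F] V := (e.trans m).trans e.symm
  have hc : ∀ v : V, e (c v) = (g : K) * e v := by
    intro v
    simp [c, hm]
  have hcj : ∀ (j : ℕ) (v : V), e ((c ^ j) v) = (g : K) ^ j * e v := by
    intro j
    induction j with
    | zero => intro v; simp
    | succ j ih =>
      intro v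
      rw [pow_succ', LinearEquiv.mul_apply, hc, ih, pow_succ']
      ring
  refine ⟨c, fun x y hx hy => ?_⟩
  have hx' : e x ≠ 0 := by simpa using hx
  have hy' : e y ≠ 0 := by simpa using hy
  have hmem := hg (Units.mk0 (e y) hy' / Units.mk0 (e x) hx')
  have hfin : Finite Kˣ := inferInstance
  obtain ⟨j, hj⟩ := (mem_powers_iff_mem_zpowers (x := g)).mpr hmem
  refine ⟨j, e.injective ?_⟩
  rw [hcj]
  have h2 : ((g ^ j : Kˣ) : K) = e y / e x := by
    have h3 := congrArg (fun u : Kˣ => (u : K)) hj
    simpa using h3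
  rw [← Units.val_pow_eq_pow_val, h2]
  exact div_mul_cancel₀ _ hx'

end Pool.Agent.TH126.GQ
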